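import Pool.Agent.Helper63_PP.Exk
import Pool.Agent.Helper66_CY.Cyn
import Pool.Agent.Helper96_BN.Npr
import Pool.Agent.Helper20_PP.Nls

/-!
# Squad PP, part CY, module SUR: every irreducible representation of `N_G(P)` occurs

The induced module contains `κ` outside the norm; a representation of `G` of least dimension with
this property is simple, by Maschke's theorem for `N / P`.
-/

open scoped BigOperators

noncomputable section

namespace Pool.Agent.PP.H55

open Pool.Agent.PP Pool.Agent.Helper51_AWC Pool.Agent.Helper79_WRA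

section simple

variable {F : Type} [Field F] [IsAlgClosed F]

/-- a simple representation is given by an irreducible matrix representation -/
theorem irr_of_simple {G V : Type} [Group G] [AddCommGroup V] [Module F V]
    [FiniteDimensional F V] [Nontrivial V] (ρ : Representation F G V)
    (h : ∀ W : Submodule F V, (∀ g, ∀ v ∈ W, ρ g v ∈ W) → W = ⊥ ∨ W = ⊤) :
    ∃ (n : ℕ) (σ : G →* Matrix (Fin n) (Fin n) F) (e : V ≃ₗ[F] (Fin n → F)), IsIrr σ ∧
      ∀ g v, e (ρ g v) = (σ g).mulVec (e v) := by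
  classical
  let R := MonoidAlgebra F G
  let M := ρ.asModule
  let e : M ≃ₗ[F] V := ρ.asModuleEquiv
  have hMn : Nontrivial M := inferInstanceAs (Nontrivial V)
  have hsm : IsSimpleModule R M := by
    refine (isSimpleModule_iff R M).2 { exists_pair_ne := ⟨⊥, ⊤, bot_ne_top⟩, eq_bot_or_eq_top := ?_ }
    intro W'
    let S : Subrepresentation ρ := Subrepresentation.subrepresentationSubmoduleOrderIso.symm W'
    have hS : ∀ x : M, x ∈ W' ↔ e x ∈ S.toSubmodule := fun x => Iff.rfl
    rcases h S.toSubmodule (fun g v hv => S.apply_mem_toSubmodule g hv) with h1 | h1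
    · left
      rw [eq_bot_iff]
      intro x hx
      rw [hS, h1, Submodule.mem_bot] at hx
      rw [Submodule.mem_bot]
      exact e.map_eq_zero_iff.1 hx
    · right
      rw [eq_top_iff]
      intro x _
      rw [hS, h1]
      trivial
  have : FiniteDimensional F M := inferInstanceAs (FiniteDimensional F V)
  let b := Module.finBasis F M
  let Ψ : R →ₐ[F] Matrix (Fin (Module.finrank F M)) (Fin (Module.finrank F M)) F :=
    (LinearMap.toMatrixAlgEquiv b).toAlgHom.comp (Algebra.lsmul F F M)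
  let κ : G →* Matrix (Fin (Module.finrank F M)) (Fin (Module.finrank F M)) F :=
    (Ψ : R →* _).comp (MonoidAlgebra.of F G)
  have hΨ : Function.Surjective Ψ := by
    intro X
    obtain ⟨r, hr⟩ := H63.burnside (R := R) ((LinearMap.toMatrixAlgEquiv b).symm X)
    refine ⟨r, ?_⟩
    have h1 : Algebra.lsmul F F M r = (LinearMap.toMatrixAlgEquiv b).symm X := by
      apply LinearMap.ext
      intro t
      exact (hr t).symm
    change LinearMap.toMatrixAlgEquiv b (Algebra.lsmul F F M r) = X
    rw [h1]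
    exact (LinearMap.toMatrixAlgEquiv b).apply_symm_apply X
  have hspan : Submodule.span F (Set.range κ) = ⊤ := by
    rw [eq_top_iff]
    rintro X -
    obtain ⟨r, rfl⟩ := hΨ X
    induction r using MonoidAlgebra.induction_on with
    | of g => exact Submodule.subset_span ⟨g, rfl⟩
    | add f g hf hg => rw [map_add]; exact Submodule.add_mem _ hf hg
    | smul c f hf => rw [map_smul]; exact Submodule.smul_mem _ _ hf
  refine ⟨Module.finrank F M, κ, e.symm.trans b.equivFun, ⟨Module.finrank_pos, hspan⟩, ?_⟩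
  intro g v
  set t : M := e.symm v with ht
  have h1 : (κ g).mulVec (b.equivFun t) = b.equivFun ((MonoidAlgebra.of F G g : R) • t) := by
    change (LinearMap.toMatrixAlgEquiv b (Algebra.lsmul F F M (MonoidAlgebra.of F G g))).mulVec
      (b.equivFun t) = _
    exact LinearMap.toMatrix_mulVec_repr b b _ t
  change b.equivFun (e.symm (ρ g v)) = (κ g).mulVec (b.equivFun t)
  rw [h1]
  congr 1
  rw [LinearEquiv.symm_apply_eq]
  change _ = ρ.asModuleEquiv ((MonoidAlgebra.of F G g : R) • t)
  rw [Representation.asModuleEquiv_map_smul, Representation.asAlgebraHom_of]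
  rfl

end simple

section emb

variable {F : Type} [Field F] {G : Type} [Group G] [Finite G] {P N : Subgroup G} {m : ℕ}
  {κ : N →* Matrix (Fin m) (Fin m) F}

/-- the averaged lift of an embedding whose image modulo `W` is contained in the norm -/
theorem lift_nrm (hPN : P ≤ N) (hNP : N ≤ Subgroup.normalizer (P : Set G))
    (hκP : ∀ n : N, (n : G) ∈ P → κ n = 1) (hidx : (P.relIndex N : F) ≠ 0) {V : Type}
    [AddCommGroup V] [Module F V] (ρ : Representation F G V) (ι : (Fin m → F) →ₗ[F] V)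
    (hint : ∀ (n : N) (w : Fin m → F), ι ((κ n).mulVec w) = ρ n (ι w))
    (W : Submodule F V) (hW : ∀ g, ∀ v ∈ W, ρ g v ∈ W)
    (hι : ∀ w, ι w ∈ nrmV ρ P ⊔ W) :
    ∃ s : (Fin m → F) →ₗ[F] V, (∀ (n : N) (w : Fin m → F), s ((κ n).mulVec w) = ρ n (s w)) ∧
      (∀ w, s w ∈ nrmV ρ P) ∧ ∀ w, ι w - s w ∈ W := by
  classical
  have hfP := Fintype.ofFinite P
  have hfN := Fintype.ofFinite N
  -- a linear lift
  have h0 : ∀ i : Fin m, ∃ u : V, ι (Pi.single i 1) - (∑ p : P, ρ p u) ∈ W := by
    intro i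
    obtain ⟨a, ⟨u, hu⟩, c, hc, hac⟩ := Submodule.mem_sup.1 (hι (Pi.single i 1))
    refine ⟨u, ?_⟩
    rw [finsum_eq_sum_of_fintype, LinearMap.sum_apply] at hu
    rw [hu, ← hac, add_sub_cancel_left]
    exact hc
  choose u hu using h0
  let s0 : (Fin m → F) →ₗ[F] V := (Pi.basisFun F (Fin m)).constr F u
  have hs0 : ∀ w, ι w - (∑ p : P, ρ p (s0 w)) ∈ W := by
    intro w
    have h1 : (W.mkQ ∘ₗ (ι - (∑ p : P, ρ p) ∘ₗ s0)) = 0 := by
      apply (Pi.basisFun F (Fin m)).ext
      intro i
      rw [LinearMap.zero_apply, LinearMap.comp_apply, Submodule.mkQ_apply,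
        Submodule.Quotient.mk_eq_zero, LinearMap.sub_apply, LinearMap.comp_apply,
        Module.Basis.constr_basis, LinearMap.sum_apply, Pi.basisFun_apply]
      exact hu i
    have h2 := LinearMap.congr_fun h1 w
    rw [LinearMap.zero_apply, LinearMap.comp_apply, Submodule.mkQ_apply,
      Submodule.Quotient.mk_eq_zero, LinearMap.sub_apply, LinearMap.comp_apply,
      LinearMap.sum_apply] at h2
    exact h2
  -- the sum of the conjugates over `N`
  let P' : Subgroup N := P.subgroupOf N
  have hfQ := Fintype.ofFinite (N ⧸ P')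
  have hfP' := Fintype.ofFinite P'
  let S : (Fin m → F) →ₗ[F] V := ∑ n : N, ρ n ∘ₗ s0 ∘ₗ Matrix.toLin' (κ n⁻¹)
  have hS : ∀ w, S w = ∑ n : N, ρ n (s0 ((κ n⁻¹).mulVec w)) := by
    intro w
    change (∑ n : N, ρ n ∘ₗ s0 ∘ₗ Matrix.toLin' (κ n⁻¹)) w = _
    rw [LinearMap.sum_apply]
    rfl
  have hSeq : ∀ (n : N) (w : Fin m → F), S ((κ n).mulVec w) = ρ n (S w) := by
    intro n w
    rw [hS, hS, map_sum, ← Equiv.sum_comp (Equiv.mulLeft n)]
    refine Finset.sum_congr rfl fun k _ => ?_
    rw [Equiv.coe_mulLeft, Matrix.mulVec_mulVec, ← map_mul, mul_inv_rev, inv_mul_cancel_right,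
      Subgroup.coe_mul, map_mul, Module.End.mul_apply]
  have hS2 : ∀ w, S w = ∑ q : N ⧸ P', ρ (q.out : N) (∑ p : P, ρ p (s0 ((κ (q.out)⁻¹).mulVec w))) := by
    intro w
    rw [hS, ← Equiv.sum_comp (CY.H96.cosetEquiv P'), Fintype.sum_prod_type]
    refine Finset.sum_congr rfl fun q _ => ?_
    rw [map_sum]
    let c : P' ≃ P := Subgroup.subgroupOfEquivOfLe hPN |>.toEquiv
    refine Fintype.sum_equiv c _ _ fun p => ?_
    have h1 : CY.H96.cosetEquiv P' (q, p) = q.out * p := rfl
    rw [h1, mul_inv_rev, map_mul κ, hκP _ (by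
      have := Subgroup.mem_subgroupOf.1 p.2
      rw [Subgroup.coe_inv]
      exact inv_mem this), one_mul, Subgroup.coe_mul, map_mul ρ, Module.End.mul_apply]
    rfl
  refine ⟨(P.relIndex N : F)⁻¹ • S, ?_, ?_, ?_⟩
  · intro n w
    rw [LinearMap.smul_apply, LinearMap.smul_apply, hSeq, map_smul]
  · intro w
    rw [LinearMap.smul_apply]
    apply Submodule.smul_mem
    rw [hS2]
    refine Submodule.sum_mem _ fun q _ => ?_
    refine CY66.nrm_stable ρ (hNP (q.out : N).2) ⟨s0 ((κ (q.out)⁻¹).mulVec w), ?_⟩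
    rw [finsum_eq_sum_of_fintype, LinearMap.sum_apply]
  · intro w
    have h1 : ∀ q : N ⧸ P', ι w - ρ (q.out : N) (∑ p : P, ρ p (s0 ((κ (q.out)⁻¹).mulVec w))) ∈ W := by
      intro q
      have h2 := hW (q.out : N) _ (hs0 ((κ (q.out)⁻¹).mulVec w))
      rw [map_sub, ← hint, Matrix.mulVec_mulVec, ← map_mul, mul_inv_cancel, map_one,
        Matrix.one_mulVec] at h2
      exact h2
    have h3 : (P.relIndex N : F) • ι w - S w ∈ W := by
      have h4 : (P.relIndex N : F) • ι w - S w = ∑ q : N ⧸ P', (ι w -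
          ρ (q.out : N) (∑ p : P, ρ p (s0 ((κ (q.out)⁻¹).mulVec w)))) := by
        rw [Finset.sum_sub_distrib, ← hS2, Finset.sum_const, Finset.card_univ,
          ← Nat.card_eq_fintype_card, Nat.cast_smul_eq_nsmul]
        rfl
      rw [h4]
      exact Submodule.sum_mem _ fun q _ => h1 q
    have h5 := W.smul_mem (P.relIndex N : F)⁻¹ h3
    rw [smul_sub, smul_smul, inv_mul_cancel₀ hidx, one_smul] at h5
    exact h5

/-- a representation with `EmbN` has a simple constituent with `EmbN` -/
theorem exists_simple (hPN : P ≤ N) (hNP : N ≤ Subgroup.normalizer (P : Set G))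
    (hκP : ∀ n : N, (n : G) ∈ P → κ n = 1) (hidx : (P.relIndex N : F) ≠ 0) [IsAlgClosed F] (d : ℕ) :
    ∀ (V : Type) [AddCommGroup V] [Module F V] [FiniteDimensional F V] (ρ : Representation F G V)
    (ι : (Fin m → F) →ₗ[F] V), EmbN P N κ ρ ι → Module.finrank F V = d →
    ∃ (n : ℕ) (σ : G →* Matrix (Fin n) (Fin n) F) (ι' : (Fin m → F) →ₗ[F] (Fin n → F)), IsIrr σ ∧
      EmbN P N κ (mrep σ) ι' := by
  classical
  have hfP := Fintype.ofFinite P
  induction d using Nat.strong_induction_on with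
  | _ d ih =>
  intro V _ _ _ ρ ι hι hd
  by_cases hs : ∀ W : Submodule F V, (∀ g, ∀ v ∈ W, ρ g v ∈ W) → W = ⊥ ∨ W = ⊤
  · have hnt : Nontrivial V := by
      obtain ⟨w, hw⟩ := hι.nt
      refine ⟨ι w, 0, fun h => hw ?_⟩
      rw [h]
      exact zero_mem _
    obtain ⟨n, σ, e, hσ, he⟩ := irr_of_simple ρ hs
    refine ⟨n, σ, e.toLinearMap ∘ₗ ι, hσ, ?_, ?_⟩
    · intro k w
      rw [LinearMap.comp_apply, LinearMap.comp_apply, hι.int]
      exact he k (ι w)
    · obtain ⟨w, hw⟩ := hι.nt
      refine ⟨w, fun hmem => hw ?_⟩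
      obtain ⟨y, hy⟩ := hmem
      refine ⟨e.symm y, ?_⟩
      apply e.injective
      rw [finsum_eq_sum_of_fintype, LinearMap.sum_apply] at hy ⊢
      rw [map_sum]
      rw [LinearMap.comp_apply] at hy
      change _ = e.toLinearMap (ι w)
      rw [← hy]
      refine Finset.sum_congr rfl fun p _ => ?_
      rw [he, LinearEquiv.apply_symm_apply]
      rfl
  · push Not at hs
    obtain ⟨W, hW, hW0, hW1⟩ := hs
    by_cases hq : ∀ w, ι w ∈ nrmV ρ P ⊔ W
    · -- the embedding into `W`
      obtain ⟨s, hs1, hs2, hs3⟩ := lift_nrm hPN hNP hκP hidx ρ ι hι.int W hW hq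
      let τ : Representation F G W := ρ.subrepresentation W (fun g v hv => hW g v hv)
      let ι' : (Fin m → F) →ₗ[F] W := (ι - s).codRestrict W hs3
      refine ih (Module.finrank F W) ?_ W τ ι' ⟨?_, ?_⟩ rfl
      · rw [← hd]
        exact Submodule.finrank_lt hW1
      · intro n w
        apply Subtype.ext
        change ι ((κ n).mulVec w) - s ((κ n).mulVec w) = ρ n (ι w - s w)
        rw [hι.int, hs1, map_sub]
      · obtain ⟨w, hw⟩ := hι.nt
        refine ⟨w, fun hmem => hw ?_⟩
        obtain ⟨y, hy⟩ := hmem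
        rw [finsum_eq_sum_of_fintype, LinearMap.sum_apply] at hy
        have h1 : (∑ p : P, ρ p (y : V)) = ι w - s w := by
          have h2 := congrArg Subtype.val hy
          rw [AddSubmonoidClass.coe_finsetSum] at h2
          exact h2
        have h3 : ι w - s w ∈ nrmV ρ P := by
          refine ⟨(y : V), ?_⟩
          rw [finsum_eq_sum_of_fintype, LinearMap.sum_apply, h1]
        have h4 := Submodule.add_mem _ h3 (hs2 w)
        rwa [sub_add_cancel] at h4
    · -- the embedding into `V / W`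
      push Not at hq
      obtain ⟨w, hw⟩ := hq
      let τ : Representation F G (V ⧸ W) := ρ.quotient W (fun g v hv => hW g v hv)
      refine ih (Module.finrank F (V ⧸ W)) ?_ (V ⧸ W) τ (W.mkQ ∘ₗ ι) ⟨?_, w, ?_⟩ rfl
      · have h1 := Submodule.finrank_quotient_add_finrank W
        have h2 : 0 < Module.finrank F W := by
          rw [Nat.pos_iff_ne_zero, Ne, Submodule.finrank_eq_zero]
          exact hW0
        omega
      · intro n w
        rw [LinearMap.comp_apply, hι.int]
        rfl
      · intro hmem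
        apply hw
        obtain ⟨y, hy⟩ := hmem
        obtain ⟨y, rfl⟩ := W.mkQ_surjective y
        rw [finsum_eq_sum_of_fintype, LinearMap.sum_apply] at hy
        have h1 : ∑ p : P, τ p (W.mkQ y) = W.mkQ (∑ p : P, ρ p y) := by
          rw [map_sum]
          rfl
        rw [h1, LinearMap.comp_apply, Submodule.mkQ_apply, Submodule.mkQ_apply,
          Submodule.Quotient.eq] at hy
        have h2 : ι w = (∑ p : P, ρ p y) + -((∑ p : P, ρ p y) - ι w) := by abel
        rw [h2]
        refine Submodule.add_mem_sup ⟨y, ?_⟩ (W.neg_mem hy)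
        rw [finsum_eq_sum_of_fintype, LinearMap.sum_apply]

/-- the embedding into the induced module -/
theorem exists_ind (hκP : ∀ n : N, (n : G) ∈ P → κ n = 1) (hPN : P ≤ N)
    (hcard : (Nat.card P : F) = 0) (hm : 0 < m) :
    ∃ (V : Type) (_ : AddCommGroup V) (_ : Module F V) (_ : FiniteDimensional F V)
      (ρ : Representation F G V) (ι : (Fin m → F) →ₗ[F] V), EmbN P N κ ρ ι := by
  classical
  have hfP := Fintype.ofFinite P
  let τ : Representation F N (Fin m → F) := mrep κ
  have hτ : ∀ n w, τ n w = (κ n).mulVec w := fun n w => rfl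
  let Y : Submodule F (G → (Fin m → F)) := Representation.coindV N.subtype τ
  let ρ : Representation F G Y := Representation.coind N.subtype τ
  have hρ : ∀ (g : G) (y : Y) (x : G), (ρ g y : G → (Fin m → F)) x = (y : G → (Fin m → F)) (x * g) :=
    fun g y x => rfl
  let ι₀ : (Fin m → F) →ₗ[F] (G → (Fin m → F)) :=
    { toFun := fun w x => if h : x ∈ N then (κ ⟨x, h⟩).mulVec w else 0
      map_add' := by
        intro a b
        funext x
        by_cases h : x ∈ N
        · simp only [h, dif_pos, Pi.add_apply, Matrix.mulVec_add]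
        · simp only [h, dif_neg, not_false_eq_true, Pi.add_apply, add_zero]
      map_smul' := by
        intro c a
        funext x
        by_cases h : x ∈ N
        · simp only [h, dif_pos, Pi.smul_apply, Matrix.mulVec_smul, RingHom.id_apply]
        · simp only [h, dif_neg, not_false_eq_true, Pi.smul_apply, smul_zero] }
  have hι1 : ∀ w (x : N), ι₀ w x = (κ x).mulVec w := by
    intro w x
    change (if h : (x : G) ∈ N then (κ ⟨x, h⟩).mulVec w else 0) = _
    rw [dif_pos x.2]
  have hι0 : ∀ w x, x ∉ N → ι₀ w x = 0 := by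
    intro w x hx
    change (if h : x ∈ N then (κ ⟨x, h⟩).mulVec w else 0) = _
    rw [dif_neg hx]
  have hιY : ∀ w, ι₀ w ∈ Y := by
    intro w
    rw [Representation.mem_coindV]
    intro n x
    change ι₀ w ((n : G) * x) = (κ n).mulVec (ι₀ w x)
    by_cases hx : x ∈ N
    · have h1 := hι1 w (n * ⟨x, hx⟩)
      have h2 := hι1 w ⟨x, hx⟩
      rw [Subgroup.coe_mul] at h1
      rw [h1, h2, Matrix.mulVec_mulVec, ← map_mul]
    · rw [hι0 w x hx, Matrix.mulVec_zero, hι0]
      intro h
      exact hx ((Subgroup.mul_mem_cancel_left N n.2).1 h)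
  let ι : (Fin m → F) →ₗ[F] Y := ι₀.codRestrict Y hιY
  have hι : ∀ w x, (ι w : G → (Fin m → F)) x = ι₀ w x := fun w x => rfl
  refine ⟨Y, inferInstance, inferInstance, inferInstance, ρ, ι, ?_, fun _ => 1, ?_⟩
  · intro n w
    apply Subtype.ext
    funext x
    rw [hι, hρ, hι]
    by_cases hx : x ∈ N
    · have h1 := hι1 w (⟨x, hx⟩ * n)
      have h2 := hι1 ((κ n).mulVec w) ⟨x, hx⟩
      rw [Subgroup.coe_mul] at h1
      rw [h1, h2, Matrix.mulVec_mulVec, ← map_mul]
    · rw [hι0 _ x hx, hι0]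
      intro h
      exact hx ((Subgroup.mul_mem_cancel_right N n.2).1 h)
  · rintro ⟨y, hy⟩
    rw [finsum_eq_sum_of_fintype, LinearMap.sum_apply] at hy
    have h1 : ((∑ p : P, ρ p y : Y) : G → (Fin m → F)) 1 =
        (ι (fun _ => 1) : G → (Fin m → F)) 1 := by rw [hy]
    have h2 : (ι (fun _ => 1) : G → (Fin m → F)) 1 = fun _ => 1 := by
      rw [hι]
      have h3 := hι1 (fun _ => 1) 1
      rw [map_one, Matrix.one_mulVec] at h3
      exact h3
    have h3 : ((∑ p : P, ρ p y : Y) : G → (Fin m → F)) 1 = 0 := by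
      rw [AddSubmonoidClass.coe_finsetSum, Finset.sum_apply]
      have h4 : ∀ p : P, (ρ p y : G → (Fin m → F)) 1 = (y : G → (Fin m → F)) 1 := by
        intro p
        rw [hρ, one_mul]
        have h5 := (Representation.mem_coindV _ _ _).1 y.2 ⟨(p : G), hPN p.2⟩ 1
        rw [mul_one, hτ, hκP _ p.2, Matrix.one_mulVec] at h5
        exact h5
      rw [Finset.sum_congr rfl fun p _ => h4 p, Finset.sum_const, Finset.card_univ,
        ← Nat.card_eq_fintype_card, ← Nat.cast_smul_eq_nsmul F, hcard, zero_smul]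
    rw [h2, h3] at h1
    have h6 := congrFun h1 ⟨0, hm⟩
    exact one_ne_zero h6.symm

end emb

/-- every irreducible representation of `N` occurs outside the norm in an irreducible
representation of `G` -/
theorem sur_gen {ℓ : ℕ} {F : Type} [Field F] (hF : GoodF ℓ F) {G : Type} [Group G] [Finite G]
    {P N : Subgroup G} (hP : IsPGroup ℓ P) (hne : P ≠ ⊥) (hi : ¬ ℓ ∣ P.relIndex N) (hPN : P ≤ N)
    (hNP : N ≤ Subgroup.normalizer (P : Set G)) {m : ℕ} (κ : N →* Matrix (Fin m) (Fin m) F)
    (hκ : IsIrr κ) :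
    ∃ (n : ℕ) (σ : G →* Matrix (Fin n) (Fin n) F) (ι : (Fin m → F) →ₗ[F] (Fin n → F)),
      IsIrr σ ∧ EmbN P N κ (mrep σ) ι := by
  have : IsAlgClosed F := hF.closed
  have hch : CharP F ℓ := hF.char
  have hnorm : (P.subgroupOf N).Normal := (Subgroup.normal_subgroupOf_iff_le_normalizer hPN).2 hNP
  have hp : IsPGroup ℓ (P.subgroupOf N) := hP.comap_of_injective N.subtype
    Subtype.val_injective
  have hκP : ∀ n : N, (n : G) ∈ P → κ n = 1 := fun n hn =>
    H20.nls_triv hF.prime hF.char (P.subgroupOf N) hnorm hp κ hκ n (Subgroup.mem_subgroupOf.2 hn)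
  have hidx : (P.relIndex N : F) ≠ 0 := by
    intro h
    rw [CharP.cast_eq_zero_iff F ℓ] at h
    exact hi h
  have hcard : (Nat.card P : F) = 0 := by
    rw [CharP.cast_eq_zero_iff F ℓ]
    have : Fact ℓ.Prime := ⟨hF.prime⟩
    obtain ⟨k, hk⟩ := IsPGroup.iff_card.1 hP
    rw [hk]
    refine dvd_pow_self ℓ ?_
    rintro rfl
    rw [pow_zero] at hk
    exact hne (Subgroup.card_eq_one.1 hk)
  obtain ⟨V, _, _, _, ρ, ι, hι⟩ := exists_ind (κ := κ) hκP hPN hcard hκ.1
  exact exists_simple hPN hNP hκP hidx _ V ρ ι hι rfl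

/-- SUR. -/
theorem sur : SurStmt := by
  intro ℓ _ F _ hF G _ _ P hP m κ hκ
  exact sur_gen hF hP.pgrp hP.ne
    (fun h => hP.sylow (h.trans (Subgroup.relIndex_dvd_index_of_le Subgroup.le_normalizer)))
    Subgroup.le_normalizer le_rfl κ hκ

end Pool.Agent.PP.H55
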