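import Pool.Agent.Helper36_PP.StmtsCY

/-!
# Squad PP, module MAC: homomorphisms for `N_G(P)` extend to `G` modulo traces
-/

set_option autoImplicit false

noncomputable section

namespace Pool.Agent.PP.H55

open Pool.Agent.PP

/-- An `ℓ`-element of the normalizer of a Sylow subgroup is in the Sylow subgroup. -/
theorem mem_of_norm {ℓ : ℕ} [Fact ℓ.Prime] {G : Type} [Group G] [Finite G] {P : Subgroup G}
    (hP : IsPGroup ℓ P) (hs : ¬ ℓ ∣ P.index) {x : G} (hx : x ∈ Subgroup.normalizer (P : Set G))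
    (hl : ∃ k, x ^ ℓ ^ k = 1) : x ∈ P := by
  classical
  set N := Subgroup.normalizer (P : Set G) with hN
  have hnor : (P.subgroupOf N).Normal := Subgroup.normal_in_normalizer
  let z : N ⧸ P.subgroupOf N := QuotientGroup.mk ⟨x, hx⟩
  have h1 : z = 1 := by
    obtain ⟨k, hk⟩ := hl
    have h2 : orderOf z ∣ ℓ ^ k := by
      apply orderOf_dvd_of_pow_eq_one
      change QuotientGroup.mk (⟨x, hx⟩ : N) ^ ℓ ^ k = 1
      rw [← QuotientGroup.mk_pow]
      have h3 : (⟨x, hx⟩ : N) ^ ℓ ^ k = 1 := Subtype.ext (by simpa using hk)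
      rw [h3]
      rfl
    have h3 : orderOf z ∣ (P.subgroupOf N).index := orderOf_dvd_natCard z
    have h4 : (P.subgroupOf N).index ∣ P.index := Subgroup.relIndex_dvd_index_of_le Subgroup.le_normalizer
    obtain ⟨j, -, hj⟩ := (Nat.dvd_prime_pow (Fact.out : ℓ.Prime)).1 h2
    rw [← orderOf_eq_one_iff]
    rcases Nat.eq_zero_or_pos j with rfl | hj0
    · rw [hj, pow_zero]
    · exfalso
      exact hs ((dvd_pow_self ℓ hj0.ne').trans (hj ▸ (h3.trans h4)))
  have h5 := (QuotientGroup.eq_one_iff (⟨x, hx⟩ : N)).1 h1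
  exact Subgroup.mem_subgroupOf.1 h5

section

variable {F : Type} [Field F] {G : Type} [Group G] {V V' : Type} [AddCommGroup V] [Module F V]
  [AddCommGroup V'] [Module F V']

/-- The conjugate of a linear map. -/
def cj (ρ : Representation F G V) (ρ' : Representation F G V') (f : V →ₗ[F] V') (x : G) :
    V →ₗ[F] V' := ρ' x ∘ₗ f ∘ₗ ρ x⁻¹

theorem cj_mul (ρ : Representation F G V) (ρ' : Representation F G V') (f : V →ₗ[F] V')
    (g x : G) : cj ρ ρ' f (g * x) = ρ' g ∘ₗ cj ρ ρ' f x ∘ₗ ρ g⁻¹ := by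
  ext v
  simp [cj, map_mul, mul_inv_rev]

theorem cj_norm (ρ : Representation F G V) (ρ' : Representation F G V') (f : V →ₗ[F] V')
    (N : Subgroup G) (h : HomOn N ρ ρ' f) (x n : G) (hn : n ∈ N) :
    cj ρ ρ' f (x * n) = cj ρ ρ' f x := by
  ext v
  have h1 := h n hn (ρ n⁻¹ (ρ x⁻¹ v))
  have h2 : ρ n (ρ n⁻¹ (ρ x⁻¹ v)) = ρ x⁻¹ v := by
    rw [← Module.End.mul_apply, ← map_mul, mul_inv_cancel, map_one, Module.End.one_apply]
  rw [h2] at h1
  simp only [cj, map_mul, mul_inv_rev, LinearMap.comp_apply, Module.End.mul_apply]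
  rw [h1]

end

theorem mac : MacStmt := by
  intro ℓ _ F _ G _ _ P hP V V' _ _ _ _ ρ ρ' f hf
  classical
  set N := Subgroup.normalizer (P : Set G) with hN
  have hfin : Finite (G ⧸ N) := inferInstance
  let _ : Fintype (G ⧸ N) := Fintype.ofFinite _
  let _ : Fintype P := Fintype.ofFinite _
  let t : G ⧸ N → (V →ₗ[F] V') := fun q => cj ρ ρ' f q.out
  have ht : ∀ x : G, t (QuotientGroup.mk x) = cj ρ ρ' f x := by
    intro x
    obtain ⟨n, hn⟩ := QuotientGroup.mk_out_eq_mul N x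
    change cj ρ ρ' f _ = _
    rw [hn]
    exact cj_norm ρ ρ' f N hf x n n.2
  have htg : ∀ (g : G) (q : G ⧸ N), t (g • q) = ρ' g ∘ₗ t q ∘ₗ ρ g⁻¹ := by
    intro g q
    obtain ⟨x, rfl⟩ := QuotientGroup.mk_surjective q
    have h1 : g • (QuotientGroup.mk x : G ⧸ N) = QuotientGroup.mk (g * x) := rfl
    rw [h1, ht, ht, cj_mul]
  -- the trace over the cosets
  let f' : V →ₗ[F] V' := ∑ q, t q
  have hf' : HomOn ⊤ ρ ρ' f' := by
    intro g _ v
    have h1 : f' = ρ' g ∘ₗ f' ∘ₗ ρ g⁻¹ := by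
      have h2 : f' = ∑ q, t (g • q) := by
        refine (Fintype.sum_equiv (MulAction.toPerm g) _ _ fun q => ?_).symm
        rfl
      rw [h2]
      have h3 : ρ' g ∘ₗ f' ∘ₗ ρ g⁻¹ = ∑ q, ρ' g ∘ₗ t q ∘ₗ ρ g⁻¹ := by
        ext v
        simp [f', LinearMap.sum_apply, map_sum]
      rw [← h2, h3]
      rw [h2]
      exact Finset.sum_congr rfl fun q _ => htg g q
    have h4 := LinearMap.congr_fun h1 (ρ g v)
    rw [LinearMap.comp_apply, LinearMap.comp_apply, ← Module.End.mul_apply, ← map_mul,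
      inv_mul_cancel, map_one, Module.End.one_apply] at h4
    exact h4
  -- the orbits of `P`
  have hPN : P ≤ N := Subgroup.le_normalizer
  have hfree : ∀ (p : P) (q : G ⧸ N), q ≠ QuotientGroup.mk 1 → p • q = q → p = 1 := by
    intro p q hq hpq
    obtain ⟨x, rfl⟩ := QuotientGroup.mk_surjective q
    have hx : x ∉ N := by
      intro hx
      apply hq
      rw [QuotientGroup.eq, mul_one]
      exact N.inv_mem hx
    have h1 : (QuotientGroup.mk ((p : G) * x) : G ⧸ N) = QuotientGroup.mk x := hpq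
    rw [QuotientGroup.eq] at h1
    have h2 : x⁻¹ * (p : G) * x ∈ N := by
      have h3 := N.inv_mem h1
      simpa [mul_assoc] using h3
    have h3 : x⁻¹ * (p : G) * x ∈ P := by
      refine mem_of_norm hP.pgrp hP.sylow h2 ?_
      obtain ⟨k, hk⟩ := hP.pgrp p
      refine ⟨k, ?_⟩
      have h4 : (x⁻¹ * (p : G) * x⁻¹⁻¹) ^ ℓ ^ k = x⁻¹ * (p : G) ^ ℓ ^ k * x⁻¹⁻¹ := conj_pow
      rw [inv_inv] at h4
      rw [h4]
      have h5 : (p : G) ^ ℓ ^ k = 1 := by
        have := congrArg (fun z : P => (z : G)) hk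
        simpa using this
      rw [h5]
      group
    have h4 := hP.ti x⁻¹ (fun h => hx (by simpa using N.inv_mem h)) (p : G) p.2
      (by rw [inv_inv]; exact h3)
    exact Subtype.ext h4
  have hone : ∀ p : P, p • (QuotientGroup.mk 1 : G ⧸ N) = QuotientGroup.mk 1 := by
    intro p
    change (QuotientGroup.mk ((p : G) * 1) : G ⧸ N) = QuotientGroup.mk 1
    rw [QuotientGroup.eq, mul_one, mul_one]
    exact N.inv_mem (hPN p.2)
  let O := MulAction.orbitRel.Quotient P (G ⧸ N)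
  let mk : G ⧸ N → O := fun q => Quotient.mk'' q
  let o1 : O := mk (QuotientGroup.mk 1)
  let _ : Fintype O := Fintype.ofFinite _
  have hout : ∀ o : O, mk (Quotient.out o) = o := fun o => Quotient.out_eq' o
  have hmk : ∀ q q' : G ⧸ N, mk q = mk q' ↔ ∃ p : P, p • q' = q := by
    intro q q'
    change Quotient.mk'' q = Quotient.mk'' q' ↔ _
    rw [Quotient.eq'']
    exact Iff.rfl
  have hmk1 : ∀ q : G ⧸ N, mk q = o1 ↔ q = QuotientGroup.mk 1 := by
    intro q
    rw [hmk]
    constructor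
    · rintro ⟨p, rfl⟩; exact hone p
    · rintro rfl; exact ⟨1, one_smul _ _⟩
  let φ : V →ₗ[F] V' := ∑ o ∈ (Finset.univ : Finset O).erase o1, t (Quotient.out o)
  have htr : trP ρ ρ' P φ = ∑ q ∈ (Finset.univ : Finset (G ⧸ N)).erase (QuotientGroup.mk 1), t q := by
    unfold trP
    rw [finsum_eq_sum_of_fintype]
    have h1 : ∀ p : P, ρ' (p : G) ∘ₗ φ ∘ₗ ρ (p : G)⁻¹ =
        ∑ o ∈ (Finset.univ : Finset O).erase o1, t (p • Quotient.out o) := by
      intro p
      have h2 : ρ' (p : G) ∘ₗ φ ∘ₗ ρ (p : G)⁻¹ = ∑ o ∈ (Finset.univ : Finset O).erase o1,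
          ρ' (p : G) ∘ₗ t (Quotient.out o) ∘ₗ ρ (p : G)⁻¹ := by
        ext v
        simp [φ, LinearMap.sum_apply, map_sum]
      rw [h2]
      exact Finset.sum_congr rfl fun o _ => (htg (p : G) _).symm
    rw [Finset.sum_congr rfl fun p _ => h1 p, ← Finset.sum_product']
    refine Finset.sum_bij (fun z _ => z.1 • Quotient.out z.2) ?_ ?_ ?_ ?_
    · rintro ⟨p, o⟩ hz
      rw [Finset.mem_product, Finset.mem_erase] at hz
      rw [Finset.mem_erase]
      refine ⟨fun h => hz.2.1 ?_, Finset.mem_univ _⟩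
      have h3 : mk (p • Quotient.out o) = mk (Quotient.out o) := (hmk _ _).2 ⟨p, rfl⟩
      rw [← hout o, ← h3]
      exact (hmk1 _).2 h
    · rintro ⟨p, o⟩ hz ⟨p', o'⟩ hz' heq
      rw [Finset.mem_product, Finset.mem_erase] at hz hz'
      have h3 : mk (p • Quotient.out o) = mk (Quotient.out o) := (hmk _ _).2 ⟨p, rfl⟩
      have h4 : mk (p' • Quotient.out o') = mk (Quotient.out o') := (hmk _ _).2 ⟨p', rfl⟩
      have h5 : o = o' := by
        rw [← hout o, ← hout o', ← h3, ← h4]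
        exact congrArg mk heq
      subst h5
      have h6 : (p'⁻¹ * p) • Quotient.out o = (Quotient.out o : G ⧸ N) := by
        rw [mul_smul]
        have : p • (Quotient.out o : G ⧸ N) = p' • Quotient.out o := heq
        rw [this, inv_smul_smul]
      have h7 := hfree (p'⁻¹ * p) (Quotient.out o) (fun h => hz.2.1 (by
        rw [← hout o]; exact (hmk1 _).2 h)) h6
      have h8 : p = p' := by
        rw [inv_mul_eq_one] at h7
        exact h7.symm
      rw [h8]
    · intro q hq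
      rw [Finset.mem_erase] at hq
      obtain ⟨p, hp⟩ := (hmk q (Quotient.out (mk q))).1 (hout (mk q)).symm
      refine ⟨⟨p, mk q⟩, ?_, hp⟩
      rw [Finset.mem_product, Finset.mem_erase]
      exact ⟨Finset.mem_univ _, fun h => hq.1 ((hmk1 q).1 h), Finset.mem_univ _⟩
    · rintro ⟨p, o⟩ _
      rfl
  refine ⟨φ, ?_⟩
  have h1 : f + trP ρ ρ' P φ = f' := by
    rw [htr]
    have h2 : f = t (QuotientGroup.mk 1) := by
      rw [ht]
      ext v
      simp [cj]
    rw [h2]
    exact Finset.add_sum_erase _ _ (Finset.mem_univ _)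
  rw [h1]
  exact hf'

end Pool.Agent.PP.H55
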