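import Pool.Agent.Helper55_PP.Walk

set_option autoImplicit false

/-! Positions on the boundary of a region. -/

namespace Helper55_PP

open H91PP H91PP.TriSphere

variable {S : TriSphere}

theorem joins_symm {e : S.E} {x y : S.V} (h : S.Joins e x y) : S.Joins e y x := by
  rcases h with h | h
  · exact Or.inr h
  · exact Or.inl h

theorem joins_ne {e : S.E} {x y : S.V} (h : S.Joins e x y) : x ≠ y := by
  rintro rfl
  rcases h with h | h
  · exact S.ab e (h.1.trans h.2.symm)
  · exact S.ab e (h.1.trans h.2.symm)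

theorem joins_ends {e : S.E} {x y x' y' : S.V} (h : S.Joins e x y) (h' : S.Joins e x' y') :
    (x = x' ∧ y = y') ∨ (x = y' ∧ y = x') := by
  rcases h with ⟨h1, h2⟩ | ⟨h1, h2⟩ <;> rcases h' with ⟨h3, h4⟩ | ⟨h3, h4⟩
  · exact Or.inl ⟨h1.symm.trans h3, h2.symm.trans h4⟩
  · exact Or.inr ⟨h1.symm.trans h3, h2.symm.trans h4⟩
  · exact Or.inr ⟨h2.symm.trans h4, h1.symm.trans h3⟩
  · exact Or.inl ⟨h2.symm.trans h4, h1.symm.trans h3⟩

theorem vl_length (L : List (S.V × S.E)) (w : S.V) : (vl L w).length = L.length + 1 := by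
  simp [vl]

theorem vl_get (L : List (S.V × S.E)) (w : S.V) (i : ℕ) (hi : i < L.length) :
    (vl L w)[i]'(by rw [vl_length]; omega) = (L[i]).1 := by
  simp [vl, List.getElem_append_left, hi]

theorem vl_get_last (L : List (S.V × S.E)) (w : S.V) :
    (vl L w)[L.length]'(by rw [vl_length]; omega) = w := by
  simp [vl]

theorem step_joins {u w : S.V} {L : List (S.V × S.E)} (h : S.IsW u L w) (i : ℕ)
    (hi : i < L.length) :
    S.Joins (L[i]).2 (L[i]).1 ((vl L w)[i + 1]'(by rw [vl_length]; omega)) := by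
  induction L generalizing u i with
  | nil => simp at hi
  | cons p L ih =>
    rw [isW_cons] at h
    obtain ⟨h1, v', h2, h3⟩ := h
    cases i with
    | zero =>
      obtain ⟨l, hl⟩ := vl_head h3
      have : vl (p :: L) w = p.1 :: vl L w := by simp [vl]
      simp only [this, hl, List.getElem_cons_zero, List.getElem_cons_succ]
      exact h2
    | succ i =>
      have hi' : i < L.length := by simpa using hi
      have := ih h3 i hi'
      simpa [vl] using this

/-- position of a vertex on the boundary -/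
noncomputable def pos (L : List (S.V × S.E)) (x : S.V) : ℕ :=
  letI := Classical.decEq S.V
  (L.map Prod.fst).idxOf x

theorem pos_lt {L : List (S.V × S.E)} {x : S.V} (hx : x ∈ L.map Prod.fst) :
    pos L x < L.length := by
  letI := Classical.decEq S.V
  have := List.idxOf_lt_length_iff.2 hx
  simpa [pos] using this

theorem get_pos {L : List (S.V × S.E)} {x : S.V} (hx : x ∈ L.map Prod.fst) :
    (L[pos L x]'(pos_lt hx)).1 = x := by
  letI := Classical.decEq S.V
  have h := List.getElem_idxOf (List.idxOf_lt_length_iff.2 hx)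
  rw [List.getElem_map] at h
  exact h

theorem pos_get {L : List (S.V × S.E)} (hnd : (L.map Prod.fst).Nodup) (i : ℕ)
    (hi : i < L.length) : pos L (L[i]).1 = i := by
  letI := Classical.decEq S.V
  have h := List.Nodup.idxOf_getElem hnd i (by simpa using hi)
  rw [List.getElem_map] at h
  exact h

theorem pos_inj {L : List (S.V × S.E)} {x y : S.V} (hx : x ∈ L.map Prod.fst)
    (hy : y ∈ L.map Prod.fst) (h : pos L x = pos L y) : x = y := by
  rw [← get_pos hx, ← get_pos hy]
  simp only [h]

theorem region_len {R : Set S.T} {L : List (S.V × S.E)} {u : S.V} (h : S.IsRegion R L u) :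
    0 < L.length := List.length_pos_iff.2 h.ne

theorem region_zero {R : Set S.T} {L : List (S.V × S.E)} {u : S.V} (h : S.IsRegion R L u) :
    (L[0]'(region_len h)).1 = u := by
  obtain ⟨l, hl⟩ := vl_head h.walk
  have h1 := vl_get L u 0 (region_len h)
  rw [← h1]
  simp [hl]

theorem pos_base {R : Set S.T} {L : List (S.V × S.E)} {u : S.V} (h : S.IsRegion R L u) :
    pos L u = 0 := by
  conv_lhs => rw [← region_zero h]
  exact pos_get h.vnd 0 (region_len h)

/-- edges of the boundary join consecutive vertices -/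
theorem edge_pos {R : Set S.T} {L : List (S.V × S.E)} {u : S.V} (h : S.IsRegion R L u)
    {e : S.E} (he : e ∈ L.map Prod.snd) {x y : S.V} (hj : S.Joins e x y) :
    x ∈ L.map Prod.fst ∧ y ∈ L.map Prod.fst ∧
      (pos L x + 1 = pos L y ∨ pos L y + 1 = pos L x ∨ (pos L x = 0 ∧ pos L y + 1 = L.length) ∨
        (pos L y = 0 ∧ pos L x + 1 = L.length)) := by
  rw [List.mem_map] at he
  obtain ⟨q, hq, hqe⟩ := he
  obtain ⟨i, hi, hqi⟩ := List.mem_iff_getElem.1 hq
  have h1 := step_joins h.walk i hi
  rw [hqi, hqe] at h1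
  have hz : q.1 ∈ L.map Prod.fst := List.mem_map_of_mem hq
  have hpz : pos L q.1 = i := by rw [← hqi]; exact pos_get h.vnd i hi
  set z' := (vl L u)[i + 1]'(by rw [vl_length]; omega) with hz'
  have key : z' ∈ L.map Prod.fst ∧ ((pos L z' = i + 1) ∨ (pos L z' = 0 ∧ i + 1 = L.length)) := by
    by_cases hlt : i + 1 < L.length
    · have h2 : z' = (L[i + 1]).1 := by rw [hz']; exact vl_get L u (i + 1) hlt
      refine ⟨?_, Or.inl ?_⟩
      · rw [h2]; exact List.mem_map_of_mem (List.getElem_mem hlt)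
      · rw [h2]; exact pos_get h.vnd _ hlt
    · have h3 : i + 1 = L.length := by omega
      have h2 : z' = u := by
        rw [hz']
        simp only [h3]
        exact vl_get_last L u
      refine ⟨?_, Or.inr ⟨?_, h3⟩⟩
      · rw [h2, ← region_zero h]; exact List.mem_map_of_mem (List.getElem_mem _)
      · rw [h2]; exact pos_base h
  rcases joins_ends hj h1 with ⟨rfl, rfl⟩ | ⟨rfl, rfl⟩
  · refine ⟨hz, key.1, ?_⟩
    rcases key.2 with h4 | h4
    · left; omega
    · right; right; right; exact ⟨h4.1, by omega⟩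
  · refine ⟨key.1, hz, ?_⟩
    rcases key.2 with h4 | h4
    · right; left; omega
    · right; right; left; exact ⟨h4.1, by omega⟩

/-- Rotating the boundary. -/
theorem pack {R : Set S.T} {L : List (S.V × S.E)} {u : S.V} (h : S.IsRegion R L u)
    (f : S.V → S.V) {y1 y2 : S.V} (h1 : y1 ∈ L.map Prod.fst) (h2 : y2 ∈ L.map Prod.fst)
    (hlt : pos L y1 < pos L y2) :
    ∃ L1 L2 : List (S.V × S.E), S.IsRegion R (L1 ++ L2) y1 ∧ S.IsW y1 L1 y2 ∧ S.IsW y2 L2 y1 ∧
      (∀ v, v ∈ (L1 ++ L2).map Prod.fst ↔ v ∈ L.map Prod.fst) ∧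
      (∀ e, e ∈ (L1 ++ L2).map Prod.snd ↔ e ∈ L.map Prod.snd) ∧
      cnt f L u (pos L y1) + chg f (L1.map Prod.fst ++ [y2]) = cnt f L u (pos L y2) ∧
      chg f (L1.map Prod.fst ++ [y2]) + chg f (L2.map Prod.fst ++ [y1]) =
        chg f (L.map Prod.fst ++ [u]) := by
  obtain ⟨A, B, D, hL, hA, hB, hD, hAl, hBl, hDl⟩ := split h.walk _ _ hlt (pos_lt h2)
  rw [get_pos h1] at hA hB
  rw [get_pos h2] at hB hD
  have hperm : (B ++ (D ++ A)).Perm L := by
    rw [hL, ← List.append_assoc]
    exact List.perm_append_comm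
  have hne : B ++ (D ++ A) ≠ [] := by
    intro h0
    have h3 := hperm.length_eq
    rw [h0] at h3
    have := region_len h
    simp at h3
    omega
  have hDA : S.IsW y2 (D ++ A) y1 := isW_append.2 ⟨u, hD, hA⟩
  refine ⟨B, D ++ A, ⟨isW_append.2 ⟨y2, hB, hDA⟩, ?_, ?_, hne, ?_⟩, hB, hDA, ?_, ?_, ?_, ?_⟩
  · exact (hperm.map Prod.fst).nodup_iff.2 h.vnd
  · exact (hperm.map Prod.snd).nodup_iff.2 h.end_
  · intro e
    rw [h.bd_eq e]
    exact (hperm.map Prod.snd).mem_iff.symm
  · intro v
    exact (hperm.map Prod.fst).mem_iff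
  · intro e
    exact (hperm.map Prod.snd).mem_iff
  · have e1 : cnt f L u (pos L y1) = chg f (vl A y1) := by
      have := cnt_append f (A := A) (isW_append.2 ⟨y2, hB, hD⟩ : S.IsW y1 (B ++ D) u)
      rw [← hL, hAl] at this
      exact this
    have e2 : cnt f L u (pos L y2) = chg f (vl (A ++ B) y2) := by
      have := cnt_append f (A := A ++ B) hD
      rw [List.append_assoc, ← hL, List.length_append, hAl, hBl] at this
      rw [← this]
      congr 1
      omega
    rw [e1, e2, chg_vl_append f hB]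
    rfl
  · have e1 : chg f (vl L u) = chg f (vl A y1) + (chg f (vl B y2) + chg f (vl D u)) := by
      rw [hL, chg_vl_append f (isW_append.2 ⟨y2, hB, hD⟩ : S.IsW y1 (B ++ D) u),
        chg_vl_append f hD]
    have e2 : chg f (vl (D ++ A) y1) = chg f (vl D u) + chg f (vl A y1) :=
      chg_vl_append f hA
    have e3 : chg f (B.map Prod.fst ++ [y2]) = chg f (vl B y2) := rfl
    have e4 : chg f ((D ++ A).map Prod.fst ++ [y1]) = chg f (vl (D ++ A) y1) := rfl
    have e5 : chg f (L.map Prod.fst ++ [u]) = chg f (vl L u) := rfl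
    rw [e3, e4, e5, e1, e2]
    ring

end Helper55_PP
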