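import Pool.Agent.Helper55_PP.Region

set_option autoImplicit false

/-! Module F (selection of a balanced edge). -/

namespace Helper55_PP

open H91PP H91PP.TriSphere

variable {S : TriSphere}

theorem side_joins (t : S.T) (i : Fin 3) : S.Joins (S.s t i) (S.c t i) (S.c t (i + 1)) :=
  S.s_ends t i

theorem s_inj (t : S.T) : Function.Injective (S.s t) := by
  intro i j hij
  have h1 := side_joins t i
  have h2 := side_joins t j
  rw [hij] at h1
  rcases joins_ends h1 h2 with ⟨h3, _⟩ | ⟨h3, h4⟩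
  · exact S.c_inj t h3
  · have h5 := S.c_inj t h3
    have h6 := S.c_inj t h4
    revert h5 h6
    revert i j
    intro i j
    fin_cases i <;> fin_cases j <;> simp

theorem exists_side (t : S.T) {i j : Fin 3} (hij : i ≠ j) :
    ∃ k, S.Joins (S.s t k) (S.c t i) (S.c t j) := by
  have : j = i + 1 ∨ i = j + 1 := by
    revert hij
    revert i j
    decide
  rcases this with rfl | rfl
  · exact ⟨i, side_joins t i⟩
  · exact ⟨j, joins_symm (side_joins t j)⟩

theorem sides_iff (t : S.T) (e : S.E) : (∃ i, S.s t i = e) ↔ (S.l e = t ∨ S.r e = t) := by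
  constructor
  · rintro ⟨i, rfl⟩
    exact S.s_lr t i
  · rintro (rfl | rfl)
    · exact S.l_s e
    · exact S.r_s e

theorem double_count [Fintype S.T] [Fintype S.E] (F : S.T → S.E → ZMod 2) :
    ∑ t, ∑ i, F t (S.s t i) = ∑ e, (F (S.l e) e + F (S.r e) e) := by
  classical
  have h1 : ∀ t, ∑ i, F t (S.s t i) = ∑ e, if S.l e = t ∨ S.r e = t then F t e else 0 := by
    intro t
    rw [← Finset.sum_filter]
    have : (Finset.univ.filter fun e => S.l e = t ∨ S.r e = t) = Finset.univ.image (S.s t) := by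
      ext e
      simp only [Finset.mem_filter, Finset.mem_univ, true_and, Finset.mem_image]
      exact (sides_iff t e).symm
    rw [this, Finset.sum_image]
    intro i _ j _ h
    exact s_inj t h
  have h2 : ∀ e, (∑ t, if S.l e = t ∨ S.r e = t then F t e else 0) =
      F (S.l e) e + F (S.r e) e := by
    intro e
    rw [← Finset.sum_filter]
    have : (Finset.univ.filter fun t => S.l e = t ∨ S.r e = t) = {S.l e, S.r e} := by
      ext t
      simp [eq_comm]
    rw [this, Finset.sum_pair (S.lr e)]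
  rw [Finset.sum_congr rfl fun t _ => h1 t, Finset.sum_comm]
  exact Finset.sum_congr rfl fun e _ => h2 e

theorem fin3 (k : Fin 3 → Fin 3)
    (h : (∑ i, if (k i = 0 ∧ k (i + 1) = 1) ∨ (k i = 1 ∧ k (i + 1) = 0) then (1 : ZMod 2) else 0)
      ≠ 0) : ∃ i0 i1 i2, k i0 = 0 ∧ k i1 = 1 ∧ k i2 = 2 := by
  revert k
  decide

theorem fin3_cases : ∀ i k : Fin 3, k = i ∨ k = i + 1 ∨ k = i + 2 := by decide

/-- color of a count -/
def colf (C k : ℕ) : Fin 3 := if 3 * k < C then 0 else if 3 * k < 2 * C then 1 else 2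

/-- parity weight of a color -/
def gw (k : Fin 3) : ZMod 2 := if k = 0 then 0 else 1

/-- the edge has colors 0 and 1 -/
def P01 (k k' : Fin 3) : Prop := (k = 0 ∧ k' = 1) ∨ (k = 1 ∧ k' = 0)

instance (k k' : Fin 3) : Decidable (P01 k k') := by unfold P01; infer_instance

theorem P01_symm (k k' : Fin 3) : P01 k k' ↔ P01 k' k := by
  unfold P01
  constructor
  · rintro (h | h)
    · exact Or.inr ⟨h.2, h.1⟩
    · exact Or.inl ⟨h.2, h.1⟩
  · rintro (h | h)
    · exact Or.inr ⟨h.2, h.1⟩
    · exact Or.inl ⟨h.2, h.1⟩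

theorem step_weight (C k k' : ℕ) (hC : 10 ≤ C) (h1 : k ≤ k') (h2 : k' ≤ k + 1) :
    (if P01 (colf C k) (colf C k') then (1 : ZMod 2) else 0) =
      gw (colf C k') - gw (colf C k) := by
  unfold colf
  by_cases a1 : 3 * k < C
  · by_cases a2 : 3 * k' < C
    · simp [a1, a2, P01, gw]
    · have a3 : 3 * k' < 2 * C := by omega
      simp [a1, a2, a3, P01, gw]
  · have a2 : ¬ 3 * k' < C := by omega
    by_cases a3 : 3 * k < 2 * C
    · by_cases a4 : 3 * k' < 2 * C
      · simp [a1, a2, a3, a4, P01, gw]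
      · simp [a1, a2, a3, a4, P01, gw]
    · have a4 : ¬ 3 * k' < 2 * C := by omega
      simp [a1, a2, a3, a4, P01, gw]

theorem boundary_parity {R : Set S.T} {L : List (S.V × S.E)} {u : S.V} (h : S.IsRegion R L u)
    (f : S.V → S.V) (C : ℕ) (hC : cnt f L u L.length = C) (hC10 : 10 ≤ C) (col : S.V → Fin 3)
    (hcol : ∀ x ∈ L.map Prod.fst, col x = colf C (cnt f L u (pos L x))) [DecidableEq S.E] :
    ∑ e ∈ (L.map Prod.snd).toFinset,
      (if P01 (col (S.a e)) (col (S.b e)) then (1 : ZMod 2) else 0) = 1 := by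
  rw [List.sum_toFinset _ h.end_, List.map_map]
  obtain ⟨m, hm⟩ : ∃ m, L.length = m + 1 := ⟨L.length - 1, by have := region_len h; omega⟩
  set H : ℕ → ZMod 2 := fun i => if i < m then
    gw (colf C (cnt f L u (i + 1))) - gw (colf C (cnt f L u i)) else 0 with hH
  have key : ∀ (i : ℕ) (hi : i < L.length),
      (if P01 (col (S.a (L[i]).2)) (col (S.b (L[i]).2)) then (1 : ZMod 2) else 0) = H i := by
    intro i hi
    have hj := step_joins h.walk i hi
    have hPP : P01 (col (S.a (L[i]).2)) (col (S.b (L[i]).2)) ↔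
        P01 (col (L[i]).1) (col ((vl L u)[i + 1]'(by rw [vl_length]; omega))) := by
      rcases hj with ⟨h1, h2⟩ | ⟨h1, h2⟩
      · rw [h1, h2]
      · rw [h1, h2]; exact P01_symm _ _
    have hc1 : col (L[i]).1 = colf C (cnt f L u i) := by
      rw [hcol _ (List.mem_map_of_mem (List.getElem_mem hi)), pos_get h.vnd i hi]
    simp only [hPP, hc1]
    by_cases hlt : i < m
    · have hi1 : i + 1 < L.length := by omega
      have h2 : (vl L u)[i + 1]'(by rw [vl_length]; omega) = (L[i + 1]).1 :=
        vl_get L u (i + 1) hi1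
      have hc2 : col ((vl L u)[i + 1]'(by rw [vl_length]; omega)) =
          colf C (cnt f L u (i + 1)) := by
        rw [h2, hcol _ (List.mem_map_of_mem (List.getElem_mem hi1)), pos_get h.vnd _ hi1]
      simp only [hc2, hH, if_pos hlt]
      exact step_weight C _ _ hC10 (cnt_step f L u i).1 (cnt_step f L u i).2
    · have him : i = m := by omega
      subst him
      have h2 : (vl L u)[i + 1]'(by rw [vl_length]; omega) = u := by
        simp only [← hm]
        exact vl_get_last L u
      have hu : u ∈ L.map Prod.fst := by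
        have := List.mem_map_of_mem (f := Prod.fst) (List.getElem_mem (region_len h))
        rwa [region_zero h] at this
      have hc2 : col ((vl L u)[i + 1]'(by rw [vl_length]; omega)) = 0 := by
        rw [h2, hcol _ hu, pos_base h, cnt_zero]
        unfold colf
        rw [if_pos (by omega)]
      have h3 := (cnt_step f L u i).2
      rw [← hm, hC] at h3
      have hc1' : colf C (cnt f L u i) = 2 := by
        unfold colf
        rw [if_neg (by omega), if_neg (by omega)]
      simp only [hc2, hc1', hH, if_neg hlt]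
      rw [if_neg (by unfold P01; decide)]
  have hsum : (L.map ((fun e => if P01 (col (S.a e)) (col (S.b e)) then (1 : ZMod 2) else 0) ∘
      Prod.snd)).sum = ∑ i ∈ Finset.range L.length, H i := by
    rw [← Fin.sum_univ_fun_getElem, ← Fin.sum_univ_eq_sum_range]
    exact Finset.sum_congr rfl fun i _ => key i.1 i.2
  rw [hsum, hm, Finset.sum_range_succ]
  have h1 : ∑ i ∈ Finset.range m, H i = ∑ i ∈ Finset.range m,
      (gw (colf C (cnt f L u (i + 1))) - gw (colf C (cnt f L u i))) := by
    refine Finset.sum_congr rfl fun i hi => ?_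
    simp only [hH, if_pos (Finset.mem_range.1 hi)]
  rw [h1, Finset.sum_range_sub (fun i => gw (colf C (cnt f L u i)))]
  have h2 : H m = 0 := by simp [hH]
  have h3 := (cnt_step f L u m).2
  rw [← hm, hC] at h3
  have h4 : colf C (cnt f L u m) = 2 := by
    unfold colf
    rw [if_neg (by omega), if_neg (by omega)]
  have h5 : colf C (cnt f L u 0) = 0 := by
    rw [cnt_zero]
    unfold colf
    rw [if_pos (by omega)]
  rw [h2, h4, h5]
  decide

/-- Sperner's lemma for a region. -/
theorem sperner {R : Set S.T} {L : List (S.V × S.E)} {u : S.V} (h : S.IsRegion R L u)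
    (f : S.V → S.V) (C : ℕ) (hC : cnt f L u L.length = C) (hC10 : 10 ≤ C) (col : S.V → Fin 3)
    (hcol : ∀ x ∈ L.map Prod.fst, col x = colf C (cnt f L u (pos L x))) :
    ∃ t ∈ R, ∃ i0 i1 i2, col (S.c t i0) = 0 ∧ col (S.c t i1) = 1 ∧ col (S.c t i2) = 2 := by
  classical
  have := S.fT
  have := S.fE
  let := Fintype.ofFinite S.T
  let := Fintype.ofFinite S.E
  have h1 := boundary_parity h f C hC hC10 col hcol
  set F : S.T → S.E → ZMod 2 := fun t e =>
    if t ∈ R then (if P01 (col (S.a e)) (col (S.b e)) then 1 else 0) else 0 with hF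
  have h2 : ∑ e, (F (S.l e) e + F (S.r e) e) = 1 := by
    rw [← h1]
    have h3 : ∀ e, F (S.l e) e + F (S.r e) e = if e ∈ (L.map Prod.snd).toFinset then
        (if P01 (col (S.a e)) (col (S.b e)) then (1 : ZMod 2) else 0) else 0 := by
      intro e
      have h4 : e ∈ (L.map Prod.snd).toFinset ↔ ¬ (S.l e ∈ R ↔ S.r e ∈ R) := by
        rw [List.mem_toFinset, ← h.bd_eq e]
        rfl
      simp only [hF, h4]
      by_cases a1 : S.l e ∈ R <;> by_cases a2 : S.r e ∈ R
      · simp only [a1, a2, if_true, iff_self, not_true_eq_false, if_false]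
        exact CharTwo.add_self_eq_zero _
      · simp [a1, a2]
      · simp [a1, a2]
      · simp [a1, a2]
    rw [Finset.sum_congr rfl fun e _ => h3 e, Finset.sum_ite_mem, Finset.univ_inter]
  rw [← double_count F] at h2
  have h3 : ∃ t, ∑ i, F t (S.s t i) ≠ 0 := by
    by_contra hcon
    push Not at hcon
    rw [Finset.sum_eq_zero fun t _ => hcon t] at h2
    exact absurd h2 (by decide)
  obtain ⟨t, ht⟩ := h3
  have htR : t ∈ R := by
    by_contra hn
    apply ht
    simp [hF, hn]
  refine ⟨t, htR, fin3 (fun i => col (S.c t i)) ?_⟩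
  have h4 : ∀ i, F t (S.s t i) = if (col (S.c t i) = 0 ∧ col (S.c t (i + 1)) = 1) ∨
      (col (S.c t i) = 1 ∧ col (S.c t (i + 1)) = 0) then (1 : ZMod 2) else 0 := by
    intro i
    simp only [hF, if_pos htR]
    have hPP : P01 (col (S.a (S.s t i))) (col (S.b (S.s t i))) ↔
        P01 (col (S.c t i)) (col (S.c t (i + 1))) := by
      rcases S.s_ends t i with ⟨h1, h2⟩ | ⟨h1, h2⟩
      · rw [h1, h2]
      · rw [h1, h2]; exact P01_symm _ _
    simp only [hPP]
    rfl
  rw [← Finset.sum_congr rfl fun i _ => h4 i]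
  exact ht

/-- An edge with different roots exists. -/
theorem exists_edge {R : Set S.T} {L : List (S.V × S.E)} {u : S.V} (h : S.IsRegion R L u)
    (hR : ∀ t, R ≠ {t}) (rt : S.V → S.V) (hrt2 : ∀ x ∈ L.map Prod.fst, rt x = x) :
    ∃ e x y, e ∈ S.ER R ∧ e ∉ L.map Prod.snd ∧ S.Joins e x y ∧ x ∈ S.VR R ∧ y ∈ S.VR R ∧
      rt x ≠ rt y := by
  classical
  by_contra hcon
  have hcon' : ∀ e x y, e ∈ S.ER R → S.Joins e x y → x ∈ S.VR R → y ∈ S.VR R →
      e ∈ L.map Prod.snd ∨ rt x = rt y := by
    intro e x y h1 h2 h3 h4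
    by_contra h5
    push Not at h5
    exact hcon ⟨e, x, y, h1, h5.1, h2, h3, h4, h5.2⟩
  -- a triangle at the boundary
  have he0 : (L[0]'(region_len h)).2 ∈ L.map Prod.snd :=
    List.mem_map_of_mem (List.getElem_mem _)
  set e0 := (L[0]'(region_len h)).2 with he0'
  have hb := (h.bd_eq e0).2 he0
  obtain ⟨t, htR, i, hti⟩ : ∃ t ∈ R, ∃ i, S.s t i = e0 := by
    by_cases a1 : S.l e0 ∈ R
    · exact ⟨_, a1, S.l_s e0⟩
    · have a2 : S.r e0 ∈ R := by
        by_contra a2
        exact hb (iff_of_false a1 a2)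
      exact ⟨_, a2, S.r_s e0⟩
  have hER : ∀ k, S.s t k ∈ S.ER R := by
    intro k
    rcases S.s_lr t k with h1 | h1
    · left; rw [h1]; exact htR
    · right; rw [h1]; exact htR
  have hVR : ∀ k, S.c t k ∈ S.VR R := fun k => ⟨t, htR, k, rfl⟩
  have hi0 := edge_pos h (hti ▸ he0 : S.s t i ∈ L.map Prod.snd) (side_joins t i)
  have j1 := side_joins t (i + 1)
  have j2 := side_joins t (i + 2)
  have e3 : i + 1 + 1 = i + 2 := by
    fin_cases i <;> rfl
  have e4 : i + 2 + 1 = i := by
    fin_cases i <;> rfl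
  rw [e3] at j1
  rw [e4] at j2
  have k1 := hcon' _ _ _ (hER _) j1 (hVR _) (hVR _)
  have k2 := hcon' _ _ _ (hER _) j2 (hVR _) (hVR _)
  rw [hrt2 _ hi0.2.1] at k1
  rw [hrt2 _ hi0.1] at k2
  have n1 := joins_ne j1
  have n2 := joins_ne j2
  have n0 := joins_ne (side_joins t i)
  have hall : ∀ k, S.s t k ∈ L.map Prod.snd := by
    have h12 : S.s t (i + 1) ∈ L.map Prod.snd ∧ S.s t (i + 2) ∈ L.map Prod.snd := by
      rcases k1 with k1 | k1
      · have h5 := (edge_pos h k1 j1).2.1
        rw [hrt2 _ h5] at k2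
        rcases k2 with k2 | k2
        · exact ⟨k1, k2⟩
        · exact absurd k2 n2
      · rcases k2 with k2 | k2
        · have h5 := (edge_pos h k2 j2).1
          rw [hrt2 _ h5] at k1
          exact absurd k1 n1
        · exact absurd (k2.symm.trans k1.symm) n0
    intro k
    have : k = i ∨ k = i + 1 ∨ k = i + 2 := fin3_cases i k
    rcases this with rfl | rfl | rfl
    · rw [hti]; exact he0
    · exact h12.1
    · exact h12.2
  have hlen : L.length = 3 := by
    have p0 := edge_pos h (hall 0) (side_joins t 0)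
    have p1 := edge_pos h (hall 1) (side_joins t 1)
    have p2 := edge_pos h (hall 2) (side_joins t 2)
    have f1 : (0 : Fin 3) + 1 = 1 := rfl
    have f2 : (1 : Fin 3) + 1 = 2 := rfl
    have f3 : (2 : Fin 3) + 1 = 0 := rfl
    rw [f1] at p0
    rw [f2] at p1
    rw [f3] at p2
    have q0 := pos_lt p0.1
    have q1 := pos_lt p1.1
    have q2 := pos_lt p2.1
    have r0 : pos L (S.c t 0) ≠ pos L (S.c t 1) := fun hh =>
      absurd (S.c_inj t (pos_inj p0.1 p1.1 hh)) (by decide)
    have r1 : pos L (S.c t 1) ≠ pos L (S.c t 2) := fun hh =>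
      absurd (S.c_inj t (pos_inj p1.1 p2.1 hh)) (by decide)
    have r2 : pos L (S.c t 0) ≠ pos L (S.c t 2) := fun hh =>
      absurd (S.c_inj t (pos_inj p0.1 p2.1 hh)) (by decide)
    have s0 := p0.2.2
    have s1 := p1.2.2
    have s2 := p2.2.2
    omega
  have hedges : ∀ e ∈ L.map Prod.snd, ∃ k, S.s t k = e := by
    have hsub : (Finset.univ.image (S.s t)) ⊆ (L.map Prod.snd).toFinset := by
      intro e he
      rw [Finset.mem_image] at he
      obtain ⟨k, -, rfl⟩ := he
      exact List.mem_toFinset.2 (hall k)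
    have hcard : (L.map Prod.snd).toFinset.card ≤ (Finset.univ.image (S.s t)).card := by
      rw [Finset.card_image_of_injective _ (s_inj t), List.toFinset_card_of_nodup h.end_]
      simp [hlen]
    have heq := Finset.eq_of_subset_of_card_le hsub hcard
    intro e he
    have : e ∈ Finset.univ.image (S.s t) := by
      rw [heq]
      exact List.mem_toFinset.2 he
    rw [Finset.mem_image] at this
    obtain ⟨k, -, hk⟩ := this
    exact ⟨k, hk⟩
  have hN : ∀ e, S.l e ∈ R \ {t} ↔ S.r e ∈ R \ {t} := by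
    intro e
    by_cases hbd : S.l e ∈ R ↔ S.r e ∈ R
    · have hne : ¬ ∃ k, S.s t k = e := by
        rintro ⟨k, rfl⟩
        exact (h.bd_eq _).2 (hall k) hbd
      rw [sides_iff] at hne
      push Not at hne
      simp [hbd, hne.1, hne.2]
    · obtain ⟨k, hk⟩ := hedges e ((h.bd_eq e).1 hbd)
      have := (sides_iff t e).1 ⟨k, hk⟩
      rcases this with h1 | h1
      · have h2 : S.r e ∉ R := fun h2 => hbd (iff_of_true (h1 ▸ htR) h2)
        simp [h1, h2]
      · have h2 : S.l e ∉ R := fun h2 => hbd (iff_of_true h2 (h1 ▸ htR))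
        simp [h1, h2]
  rcases S.conn _ hN with h1 | h1
  · apply hR t
    ext t'
    constructor
    · intro h2
      by_contra h3
      have : t' ∈ R \ {t} := ⟨h2, h3⟩
      rw [h1] at this
      exact this
    · rintro rfl
      exact htR
  · have : t ∈ R \ {t} := by rw [h1]; trivial
    exact this.2 rfl

/-- MODULE F. -/
theorem select (S : TriSphere) : SelectStatement S := by
  classical
  intro R L u h hR rt hrt1 hrt2 lab
  set C := cnt lab L u L.length with hC
  have hCe : C = chg lab (L.map Prod.fst ++ [u]) := cnt_last lab L u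
  rw [← hCe]
  -- assembling the answer from a good edge
  have finish : ∀ e x y, e ∈ S.ER R → e ∉ L.map Prod.snd → S.Joins e x y → x ∈ S.VR R →
      y ∈ S.VR R → pos L (rt x) < pos L (rt y) →
      (C ≤ 9 ∨ (3 * (cnt lab L u (pos L (rt y)) - cnt lab L u (pos L (rt x))) ≤ 2 * C + 3 ∧
        3 * (C - (cnt lab L u (pos L (rt y)) - cnt lab L u (pos L (rt x)))) ≤ 2 * C + 3)) →
      ∃ (e : S.E) (x1 x2 : S.V) (L1 L2 : List (S.V × S.E)),
        e ∈ S.ER R ∧ e ∉ L.map Prod.snd ∧ S.Joins e x1 x2 ∧ rt x1 ≠ rt x2 ∧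
        S.IsRegion R (L1 ++ L2) (rt x1) ∧ S.IsW (rt x1) L1 (rt x2) ∧ S.IsW (rt x2) L2 (rt x1) ∧
        (∀ v, v ∈ (L1 ++ L2).map Prod.fst ↔ v ∈ L.map Prod.fst) ∧
        (∀ e, e ∈ (L1 ++ L2).map Prod.snd ↔ e ∈ L.map Prod.snd) ∧
        chg lab (L1.map Prod.fst ++ [rt x2]) + chg lab (L2.map Prod.fst ++ [rt x1]) = C ∧
        (C ≤ 9 ∨
          (3 * chg lab (L1.map Prod.fst ++ [rt x2]) ≤ 2 * C + 3 ∧
           3 * chg lab (L2.map Prod.fst ++ [rt x1]) ≤ 2 * C + 3)) := by
    intro e x y he1 he2 hj hx hy hlt hbal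
    obtain ⟨L1, L2, h1, h2, h3, h4, h5, h6, h7⟩ := pack h lab (hrt1 x hx) (hrt1 y hy) hlt
    rw [← hCe] at h7
    refine ⟨e, x, y, L1, L2, he1, he2, hj, ?_, h1, h2, h3, h4, h5, h7, ?_⟩
    · intro hh
      rw [hh] at hlt
      exact lt_irrefl _ hlt
    · rcases hbal with hb | ⟨hb1, hb2⟩
      · exact Or.inl hb
      · right
        constructor
        · omega
        · omega
  by_cases hC9 : C ≤ 9
  · obtain ⟨e, x, y, he1, he2, hj, hx, hy, hne⟩ := exists_edge h hR rt hrt2
    rcases lt_trichotomy (pos L (rt x)) (pos L (rt y)) with h1 | h1 | h1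
    · exact finish e x y he1 he2 hj hx hy h1 (Or.inl hC9)
    · exact absurd (pos_inj (hrt1 x hx) (hrt1 y hy) h1) hne
    · exact finish e y x he1 he2 (joins_symm hj) hy hx h1 (Or.inl hC9)
  · have hC10 : 10 ≤ C := by omega
    obtain ⟨t, htR, i0, i1, i2, hi0, hi1, hi2⟩ := sperner h lab C rfl hC10
      (fun x => colf C (cnt lab L u (pos L (rt x))))
      (fun x hx => by rw [hrt2 x hx])
    have hER : ∀ k, S.s t k ∈ S.ER R := by
      intro k
      rcases S.s_lr t k with h1 | h1
      · left; rw [h1]; exact htR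
      · right; rw [h1]; exact htR
    have hVR : ∀ k, S.c t k ∈ S.VR R := fun k => ⟨t, htR, k, rfl⟩
    -- from a pair of corners with a balanced gap
    have pair : ∀ i j : Fin 3,
        cnt lab L u (pos L (rt (S.c t i))) < cnt lab L u (pos L (rt (S.c t j))) →
        3 * (cnt lab L u (pos L (rt (S.c t j))) - cnt lab L u (pos L (rt (S.c t i)))) ≤ 2 * C →
        C ≤ 3 * (cnt lab L u (pos L (rt (S.c t j))) - cnt lab L u (pos L (rt (S.c t i)))) →
        ∃ (e : S.E) (x1 x2 : S.V) (L1 L2 : List (S.V × S.E)),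
          e ∈ S.ER R ∧ e ∉ L.map Prod.snd ∧ S.Joins e x1 x2 ∧ rt x1 ≠ rt x2 ∧
          S.IsRegion R (L1 ++ L2) (rt x1) ∧ S.IsW (rt x1) L1 (rt x2) ∧
          S.IsW (rt x2) L2 (rt x1) ∧
          (∀ v, v ∈ (L1 ++ L2).map Prod.fst ↔ v ∈ L.map Prod.fst) ∧
          (∀ e, e ∈ (L1 ++ L2).map Prod.snd ↔ e ∈ L.map Prod.snd) ∧
          chg lab (L1.map Prod.fst ++ [rt x2]) + chg lab (L2.map Prod.fst ++ [rt x1]) = C ∧
          (C ≤ 9 ∨
            (3 * chg lab (L1.map Prod.fst ++ [rt x2]) ≤ 2 * C + 3 ∧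
             3 * chg lab (L2.map Prod.fst ++ [rt x1]) ≤ 2 * C + 3)) := by
      intro i j hlt hb1 hb2
      have hij : i ≠ j := by
        rintro rfl
        exact lt_irrefl _ hlt
      obtain ⟨k, hk⟩ := exists_side t hij
      have hpos : pos L (rt (S.c t i)) < pos L (rt (S.c t j)) := by
        by_contra hcon
        exact absurd (cnt_mono lab L u (not_lt.1 hcon)) (not_le.2 hlt)
      refine finish (S.s t k) (S.c t i) (S.c t j) (hER k) ?_ hk (hVR i) (hVR j) hpos
        (Or.inr ⟨by omega, by omega⟩)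
      intro hmem
      obtain ⟨m1, m2, m3⟩ := edge_pos h hmem hk
      rw [hrt2 _ m1, hrt2 _ m2] at hlt hb1 hb2 hpos
      rcases m3 with m3 | m3 | ⟨m3, m4⟩ | ⟨m3, m4⟩
      · have := (cnt_step lab L u (pos L (S.c t i))).2
        rw [m3] at this
        omega
      · omega
      · have h5 := (cnt_step lab L u (pos L (S.c t j))).2
        rw [m4, ← hC] at h5
        rw [m3, cnt_zero] at hb1
        omega
      · omega
    have g0 : 3 * cnt lab L u (pos L (rt (S.c t i0))) < C := by
      by_contra hcon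
      simp only [colf, if_neg hcon] at hi0
      split_ifs at hi0 <;> exact absurd hi0 (by decide)
    have g1 : C ≤ 3 * cnt lab L u (pos L (rt (S.c t i1))) ∧
        3 * cnt lab L u (pos L (rt (S.c t i1))) < 2 * C := by
      constructor
      · by_contra hcon
        simp only [colf, if_pos (not_le.1 hcon)] at hi1
        exact absurd hi1 (by decide)
      · by_contra hcon
        simp only [colf, if_neg hcon] at hi1
        split_ifs at hi1 <;> exact absurd hi1 (by decide)
    have g2 : 2 * C ≤ 3 * cnt lab L u (pos L (rt (S.c t i2))) := by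
      by_contra hcon
      simp only [colf, if_pos (not_le.1 hcon)] at hi2
      split_ifs at hi2 <;> exact absurd hi2 (by decide)
    have g3 : cnt lab L u (pos L (rt (S.c t i2))) ≤ C := by
      rw [hC]
      exact cnt_mono lab L u (pos_lt (hrt1 _ (hVR i2))).le
    -- choose the largest gap
    by_cases c1 : C ≤ 3 * (cnt lab L u (pos L (rt (S.c t i1))) -
        cnt lab L u (pos L (rt (S.c t i0))))
    · exact pair i0 i1 (by omega) (by omega) c1
    · by_cases c2 : C ≤ 3 * (cnt lab L u (pos L (rt (S.c t i2))) -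
          cnt lab L u (pos L (rt (S.c t i1))))
      · exact pair i1 i2 (by omega) (by omega) c2
      · exact pair i0 i2 (by omega) (by omega) (by omega)

end Helper55_PP
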