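import Pool.Agent.Helper91_PP.Statements

set_option autoImplicit false

/-! Lemmas on walks given as lists, and on the number of label changes. -/

namespace Helper55_PP

open H91PP H91PP.TriSphere

variable {S : TriSphere}

theorem isW_nil {u w : S.V} : S.IsW u [] w ↔ u = w := Iff.rfl

theorem isW_cons {u w : S.V} {p : S.V × S.E} {L : List (S.V × S.E)} :
    S.IsW u (p :: L) w ↔ u = p.1 ∧ ∃ v', S.Joins p.2 p.1 v' ∧ S.IsW v' L w := Iff.rfl

theorem isW_append {u w : S.V} {A B : List (S.V × S.E)} :
    S.IsW u (A ++ B) w ↔ ∃ v, S.IsW u A v ∧ S.IsW v B w := by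
  induction A generalizing u with
  | nil =>
    simp only [List.nil_append, isW_nil]
    constructor
    · intro h
      exact ⟨u, rfl, h⟩
    · rintro ⟨v, rfl, h⟩
      exact h
  | cons p A ih =>
    simp only [List.cons_append, isW_cons, ih]
    constructor
    · rintro ⟨h1, v', h2, v, h3, h4⟩
      exact ⟨v, ⟨h1, v', h2, h3⟩, h4⟩
    · rintro ⟨v, ⟨h1, v', h2, h3⟩, h4⟩
      exact ⟨h1, v', h2, v, h3, h4⟩

/-- list of vertices of a walk, with the last one -/
def vl (L : List (S.V × S.E)) (w : S.V) : List S.V := L.map Prod.fst ++ [w]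

theorem vl_head {u w : S.V} {L : List (S.V × S.E)} (h : S.IsW u L w) :
    ∃ l, vl L w = u :: l := by
  cases L with
  | nil => exact ⟨[], by rw [isW_nil] at h; simp [vl, h]⟩
  | cons p L => exact ⟨L.map Prod.fst ++ [w], by rw [isW_cons] at h; simp [vl, h.1]⟩

theorem chg_append {α β : Type} (f : α → β) (l l' : List α) (x : α) :
    chg f (l ++ x :: l') = chg f (l ++ [x]) + chg f (x :: l') := by
  induction l with
  | nil => simp [chg]
  | cons y l ih =>
    cases l with
    | nil => simp [chg]
    | cons z l =>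
      simp only [List.cons_append, chg] at ih ⊢
      rw [ih]
      ring

theorem chg_snoc {α β : Type} (f : α → β) (l : List α) (x : α) :
    chg f l ≤ chg f (l ++ [x]) ∧ chg f (l ++ [x]) ≤ chg f l + 1 := by
  rcases l.eq_nil_or_concat with rfl | ⟨l', y, rfl⟩
  · simp [chg]
  · have h1 : l' ++ [y] ++ [x] = l' ++ y :: [x] := by simp
    rw [List.concat_eq_append, h1, chg_append f l' [x] y]
    simp only [chg]
    split_ifs <;> omega

theorem chg_vl_append {v w : S.V} {A B : List (S.V × S.E)} (f : S.V → S.V)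
    (hB : S.IsW v B w) : chg f (vl (A ++ B) w) = chg f (vl A v) + chg f (vl B w) := by
  obtain ⟨l, hl⟩ := vl_head hB
  have : vl (A ++ B) w = A.map Prod.fst ++ vl B w := by simp [vl]
  rw [this, hl, chg_append]
  rfl

/-- count of changes up to position k -/
noncomputable def cnt (f : S.V → S.V) (L : List (S.V × S.E)) (w : S.V) (k : ℕ) : ℕ :=
  chg f ((vl L w).take (k + 1))

theorem cnt_zero (f : S.V → S.V) (L : List (S.V × S.E)) (w : S.V) : cnt f L w 0 = 0 := by
  unfold cnt
  rcases h : vl L w with _ | ⟨a, l⟩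
  · simp [chg]
  · simp [chg]

theorem cnt_last (f : S.V → S.V) (L : List (S.V × S.E)) (w : S.V) :
    cnt f L w L.length = chg f (vl L w) := by
  unfold cnt
  rw [List.take_of_length_le]
  simp [vl]

theorem cnt_step (f : S.V → S.V) (L : List (S.V × S.E)) (w : S.V) (k : ℕ) :
    cnt f L w k ≤ cnt f L w (k + 1) ∧ cnt f L w (k + 1) ≤ cnt f L w k + 1 := by
  unfold cnt
  by_cases h : k + 1 < (vl L w).length
  · have h1 : (vl L w).take (k + 1 + 1) = (vl L w).take (k + 1) ++ [(vl L w)[k + 1]] := by
      rw [List.take_append_getElem]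
    rw [h1]
    exact chg_snoc _ _ _
  · rw [List.take_of_length_le (by omega), List.take_of_length_le (by omega)]
    omega

theorem cnt_mono (f : S.V → S.V) (L : List (S.V × S.E)) (w : S.V) : Monotone (cnt f L w) :=
  monotone_nat_of_le_succ fun k => (cnt_step f L w k).1

/-- the vertex at position k -/
theorem cnt_append {v w : S.V} {A B : List (S.V × S.E)} (f : S.V → S.V)
    (hB : S.IsW v B w) : cnt f (A ++ B) w A.length = chg f (vl A v) := by
  unfold cnt
  obtain ⟨l, hl⟩ := vl_head hB
  have h1 : vl (A ++ B) w = A.map Prod.fst ++ v :: l := by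
    rw [← hl]; simp [vl]
  rw [h1]
  congr 1
  have h2 : A.map Prod.fst ++ v :: l = (A.map Prod.fst ++ [v]) ++ l := by simp
  rw [h2]
  have h3 : A.length + 1 = (A.map Prod.fst ++ [v]).length := by simp
  rw [h3, List.take_left']
  · rfl
  · rfl

/-- A splitting of a walk at two positions. -/
theorem split {u w : S.V} {L : List (S.V × S.E)} (hL : S.IsW u L w) (i j : ℕ) (hij : i < j)
    (hj : j < L.length) :
    ∃ A B D, L = A ++ (B ++ D) ∧ S.IsW u A (L[i]'(by omega)).1 ∧
      S.IsW (L[i]'(by omega)).1 B (L[j]).1 ∧ S.IsW (L[j]).1 D w ∧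
      A.length = i ∧ B.length = j - i ∧ D.length = L.length - j := by
  have h1 : L = L.take i ++ ((L.drop i).take (j - i) ++ L.drop j) := by
    have : L.drop j = (L.drop i).drop (j - i) := by
      rw [List.drop_drop]; congr 1; omega
    rw [this, List.take_append_drop, List.take_append_drop]
  have h0 := hL
  rw [h1, isW_append] at h0
  obtain ⟨v, hA, h0⟩ := h0
  have h0' := h0
  rw [isW_append] at h0
  obtain ⟨v', hB, hD⟩ := h0
  have hv : v = (L[i]'(by omega)).1 := by
    have : (L.drop i).take (j - i) ++ L.drop j = L[i]'(by omega) :: L.drop (i + 1) := by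
      have : L.drop j = (L.drop i).drop (j - i) := by
        rw [List.drop_drop]; congr 1; omega
      rw [this, List.take_append_drop, List.drop_eq_getElem_cons]
    rw [this, isW_cons] at h0'
    exact h0'.1
  have hv' : v' = (L[j]).1 := by
    have := hD
    rw [List.drop_eq_getElem_cons hj, isW_cons] at this
    exact this.1
  subst hv hv'
  refine ⟨_, _, _, h1, hA, hB, hD, ?_, ?_, ?_⟩
  · simp; omega
  · simp; omega
  · simp

end Helper55_PP
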